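import Pool.Agent.Helper18.SU.Goals2

/-!
# MP_f2ad72_co: packet SU2 CI1
-/

set_option autoImplicit false

namespace Pool.Agent.Helper82.SU

open Pool.Agent.Helper18.SU

theorem bsz_univ {W : Type} [Fintype W] (par : W → W) (c : W) :
    bsz par Finset.univ c = (dsc par c).card := by
  unfold bsz dsi
  simp

open Classical in
theorem mem_topd {W : Type} [Fintype W] {par : W → W} {sgn : W → Bool} {K : Finset W} {d : Bool}
    {c : W} (h : c ∈ topd par sgn K d) : c ∈ tops par K ∧ par c ∈ K := by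
  unfold topd at h
  have h1 := (Finset.mem_filter.1 h).1
  refine ⟨h1, ?_⟩
  unfold tops at h1
  have h2 := (Finset.mem_filter (p := fun c => c ∉ K ∧ par c ∈ K)).1 h1
  exact h2.2.2

/-- The two placements. -/
theorem two_plc (h1 : SUBT_stmt) (h2 : CAN_stmt) (h3 : GRE_stmt) (h4 : DSC_stmt)
    (W V : Type) [Fintype W] [DecidableEq W] [Fintype V] [DecidableEq V] (A : V → V → Prop)
    (r : W) (par : W → W) (dep : W → ℕ) (sgn : W → Bool) (K : Finset W) (β m : ℕ)
    (hC : Ctx A r par dep K β m) (d : Bool) (X : Finset V) (hX : 3 * m + C0 ≤ X.card)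
    (ha : ∀ x ∈ X, mas par sgn K d + 2 * β + m + C0 ≤ (nb A d Finset.univ x).card)
    (hb : ∀ x ∈ X, Fintype.card W + 2 * β + C0 ≤ (nb A (!d) Finset.univ x).card) :
    ∃ f₀ : W → V, Emb A r par sgn K Finset.univ f₀ ∧ ∃ U₁ U₀ O₁ O₀ : W → Finset V,
      Plc (bsz par Finset.univ) (itm A r par sgn Finset.univ) O₁ (topd par sgn K d) U₁ ∧
      Plc (bsz par Finset.univ) (itm A r par sgn Finset.univ) O₀ (topd par sgn K (!d)) U₀ ∧
      (∀ c, O₁ c ⊆ nb A d Finset.univ (f₀ (par c)) \ K.image f₀) ∧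
      (∀ c, O₀ c ⊆ nb A (!d) Finset.univ (f₀ (par c)) \ K.image f₀) ∧
      (∀ c ∈ topd par sgn K d, ∀ c' ∈ topd par sgn K (!d), Disjoint (U₁ c) (U₀ c')) := by
  obtain ⟨hT, hR, hrK, hcl, hβ, hKm, -⟩ := hC
  obtain ⟨f₀, hf1, hf2, hf3⟩ := h1 W V A hT r par dep hR sgn K X (by omega)
  have hcan := h2 W V A hT r par dep hR sgn Finset.univ
  have hmass := (h4 W r par dep hR).2.2.2.2.2.2 K hrK hcl
  have hsum : K.card + mas par sgn K d + mas par sgn K (!d) = Fintype.card W := by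
    have h := hmass.2.2.2.2 sgn
    cases d
    · simp only [Bool.not_false]
      omega
    · simpa using h
  have hbs : ∀ e, ∑ i ∈ topd par sgn K e, bsz par Finset.univ i = mas par sgn K e := by
    intro e
    unfold mas
    exact Finset.sum_congr rfl fun i _ => bsz_univ par i
  have hbβ : ∀ e, ∀ c ∈ topd par sgn K e, bsz par Finset.univ c ≤ β := by
    intro e c hc
    rw [bsz_univ]
    exact hβ c (mem_topd hc).1
  have himg : (K.image f₀).card ≤ K.card := Finset.card_image_le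
  refine ⟨f₀, ⟨fun v _ => Finset.mem_univ _, hf2, hf3⟩, ?_⟩
  obtain ⟨U₁, hU₁⟩ := h3 W V (bsz par Finset.univ) (itm A r par sgn Finset.univ) hcan
    (fun c => nb A d Finset.univ (f₀ (par c)) \ K.image f₀) (topd par sgn K d) β (hbβ d) (by
      intro c hc
      rw [hbs]
      have h5 := ha _ (hf1 _ (mem_topd hc).2)
      have h6 := Finset.le_card_sdiff (K.image f₀) (nb A d Finset.univ (f₀ (par c)))
      show _ ≤ (nb A d Finset.univ (f₀ (par c)) \ K.image f₀).card
      omega)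
  set F : Finset V := (topd par sgn K d).biUnion U₁ with hF
  have hFc : F.card ≤ mas par sgn K d := by
    refine Finset.card_biUnion_le.trans ?_
    rw [← hbs]
    exact Finset.sum_le_sum fun c hc => (hU₁.1 c hc).2.1.le
  obtain ⟨U₀, hU₀⟩ := h3 W V (bsz par Finset.univ) (itm A r par sgn Finset.univ) hcan
    (fun c => (nb A (!d) Finset.univ (f₀ (par c)) \ K.image f₀) \ F) (topd par sgn K (!d)) β
    (hbβ (!d)) (by
      intro c hc
      rw [hbs]
      have h5 := hb _ (hf1 _ (mem_topd hc).2)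
      have h6 := Finset.le_card_sdiff (K.image f₀) (nb A (!d) Finset.univ (f₀ (par c)))
      have h7 := Finset.le_card_sdiff F (nb A (!d) Finset.univ (f₀ (par c)) \ K.image f₀)
      show _ ≤ ((nb A (!d) Finset.univ (f₀ (par c)) \ K.image f₀) \ F).card
      omega)
  refine ⟨U₁, U₀, _, _, hU₁, hU₀, fun c => Finset.Subset.refl _, fun c => Finset.sdiff_subset, ?_⟩
  intro c hc c' hc'
  have hsub : U₁ c ⊆ F := Finset.subset_biUnion_of_mem U₁ hc
  have hsub' : U₀ c' ⊆ (nb A (!d) Finset.univ (f₀ (par c')) \ K.image f₀) \ F := (hU₀.1 c' hc').1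
  rw [Finset.disjoint_left]
  intro x hx hx'
  exact (Finset.mem_sdiff.1 (hsub' hx')).2 (hsub hx)

theorem CI1 (h1 : SUBT_stmt) (h2 : CAN_stmt) (h3 : GRE_stmt) (h4 : DSC_stmt) (h5 : GLU_stmt) :
    CI1_stmt := by
  intro W V _ _ _ _ A r par dep sgn K β m hC d X hX ha hb
  obtain ⟨f₀, hf₀, U₁, U₀, O₁, O₀, hP1, hP0, hO1, hO0, hdis⟩ :=
    two_plc h1 h2 h3 h4 W V A r par dep sgn K β m hC d X hX ha hb
  obtain ⟨hT, hR, hrK, hcl, hβ, hKm, -⟩ := hC
  cases d
  · exact h5 W V A r par dep hR sgn K hrK hcl f₀ hf₀ U₀ U₁ O₀ O₁ hP0 hP1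
      (fun c _ => hO0 c) (fun c _ => hO1 c) (fun c hc c' hc' => (hdis c' hc' c hc).symm)
  · exact h5 W V A r par dep hR sgn K hrK hcl f₀ hf₀ U₁ U₀ O₁ O₀ hP1 hP0
      (fun c _ => hO1 c) (fun c _ => hO0 c) (fun c hc c' hc' => hdis c hc c' hc')

end Pool.Agent.Helper82.SU
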